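import Pool.Agent.Helper90.HalinK

/-!
The infinite ray theorem for undirected graphs, vertex-disjoint single rays, does not imply
`Sigma^1_1`-choice, even over `RCA_0` with `Sigma^1_1`-induction: there is an `omega`-model of
`ACA_0` and of `IRT_UVS` in which `Sigma^1_1`-choice fails.
-/

namespace Pool.Agent.Results.MP_7aa86b_lc.HalinOmegaModel

/-! ### Second order arithmetic -/

/-- Number terms of the language `L_2`; `var n` is the `n`-th number variable. -/
inductive Trm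
  | var (n : ℕ)
  | zero
  | one
  | add (s t : Trm)
  | mul (s t : Trm)
  deriving Encodable

/-- Formulas of `L_2`: equations and inequalities of number terms, `t` is an element of the
`X`-th set variable, negation, conjunction, number quantifiers and set quantifiers. -/
inductive Fml
  | eq (s t : Trm)
  | lt (s t : Trm)
  | mem (t : Trm) (X : ℕ)
  | neg (φ : Fml)
  | and (φ ψ : Fml)
  | all (x : ℕ) (φ : Fml)
  | allS (X : ℕ) (φ : Fml)
  deriving Encodable

namespace Fml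

def imp (φ ψ : Fml) : Fml := neg (and φ (neg ψ))
def ex (x : ℕ) (φ : Fml) : Fml := neg (all x (neg φ))
def exS (X : ℕ) (φ : Fml) : Fml := neg (allS X (neg φ))

end Fml

/-- Structures for `L_2`: a first order part and a collection of sets over which the set
variables range. -/
structure L2Str where
  M : Type
  zero : M
  one : M
  add : M → M → M
  mul : M → M → M
  lt : M → M → Prop
  Sets : Set (Set M)

/-- The value of a term under an assignment of the number variables. -/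
def Trm.val (𝔐 : L2Str) (v : ℕ → 𝔐.M) : Trm → 𝔐.M
  | .var n => v n
  | .zero => 𝔐.zero
  | .one => 𝔐.one
  | .add s t => 𝔐.add (s.val 𝔐 v) (t.val 𝔐 v)
  | .mul s t => 𝔐.mul (s.val 𝔐 v) (t.val 𝔐 v)

/-- Satisfaction. -/
def Fml.sat (𝔐 : L2Str) : Fml → (ℕ → 𝔐.M) → (ℕ → Set 𝔐.M) → Prop
  | .eq s t, v, _ => s.val 𝔐 v = t.val 𝔐 v
  | .lt s t, v, _ => 𝔐.lt (s.val 𝔐 v) (t.val 𝔐 v)
  | .mem t X, v, V => t.val 𝔐 v ∈ V X
  | .neg φ, v, V => ¬ φ.sat 𝔐 v V
  | .and φ ψ, v, V => φ.sat 𝔐 v V ∧ ψ.sat 𝔐 v V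
  | .all x φ, v, V => ∀ a, φ.sat 𝔐 (Function.update v x a) V
  | .allS X φ, v, V => ∀ A ∈ 𝔐.Sets, φ.sat 𝔐 v (Function.update V X A)

/-- The variable `x` occurs in the term. -/
def Trm.occ (x : ℕ) : Trm → Prop
  | .var n => n = x
  | .zero => False
  | .one => False
  | .add s t => s.occ x ∨ t.occ x
  | .mul s t => s.occ x ∨ t.occ x

/-- Formulas with bounded number quantifiers only. -/
inductive Bdd : Fml → Prop
  | eq (s t) : Bdd (.eq s t)
  | lt (s t) : Bdd (.lt s t)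
  | mem (t X) : Bdd (.mem t X)
  | neg {φ} : Bdd φ → Bdd (.neg φ)
  | and {φ ψ} : Bdd φ → Bdd ψ → Bdd (.and φ ψ)
  | ball {x t φ} : ¬ Trm.occ x t → Bdd φ → Bdd (.all x (.imp (.lt (.var x) t) φ))

/-- Arithmetical formulas: no set quantifiers. -/
def Arith : Fml → Prop
  | .eq _ _ => True
  | .lt _ _ => True
  | .mem _ _ => True
  | .neg φ => Arith φ
  | .and φ ψ => Arith φ ∧ Arith ψ
  | .all _ φ => Arith φ
  | .allS _ _ => False

def Sigma01 (φ : Fml) : Prop := ∃ x θ, Bdd θ ∧ φ = .ex x θ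
def Pi01 (φ : Fml) : Prop := ∃ x θ, Bdd θ ∧ φ = .all x θ
def Sigma11 (φ : Fml) : Prop := ∃ X θ, Arith θ ∧ φ = .exS X θ

namespace L2Str

/-- The basic axioms. -/
structure Basic (𝔐 : L2Str) : Prop where
  succ_ne : ∀ n, 𝔐.add n 𝔐.one ≠ 𝔐.zero
  succ_inj : ∀ m n, 𝔐.add m 𝔐.one = 𝔐.add n 𝔐.one → m = n
  add_zero : ∀ m, 𝔐.add m 𝔐.zero = m
  add_succ : ∀ m n, 𝔐.add m (𝔐.add n 𝔐.one) = 𝔐.add (𝔐.add m n) 𝔐.one
  mul_zero : ∀ m, 𝔐.mul m 𝔐.zero = 𝔐.zero
  mul_succ : ∀ m n, 𝔐.mul m (𝔐.add n 𝔐.one) = 𝔐.add (𝔐.mul m n) m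
  not_lt_zero : ∀ m, ¬ 𝔐.lt m 𝔐.zero
  lt_succ : ∀ m n, 𝔐.lt m (𝔐.add n 𝔐.one) ↔ (𝔐.lt m n ∨ m = n)

/-- Induction for the formulas in the class `C`, with number and set parameters. -/
def Ind (𝔐 : L2Str) (C : Fml → Prop) : Prop :=
  ∀ φ, C φ → ∀ (x : ℕ) (v : ℕ → 𝔐.M) (V : ℕ → Set 𝔐.M), (∀ k, V k ∈ 𝔐.Sets) →
    φ.sat 𝔐 (Function.update v x 𝔐.zero) V →
    (∀ a, φ.sat 𝔐 (Function.update v x a) V →
      φ.sat 𝔐 (Function.update v x (𝔐.add a 𝔐.one)) V) →
    ∀ a, φ.sat 𝔐 (Function.update v x a) V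

/-- `Delta^0_1` comprehension. -/
def DeltaCA (𝔐 : L2Str) : Prop :=
  ∀ φ ψ, Sigma01 φ → Pi01 ψ → ∀ (x : ℕ) (v : ℕ → 𝔐.M) (V : ℕ → Set 𝔐.M),
    (∀ k, V k ∈ 𝔐.Sets) →
    (∀ a, φ.sat 𝔐 (Function.update v x a) V ↔ ψ.sat 𝔐 (Function.update v x a) V) →
    ∃ A ∈ 𝔐.Sets, ∀ a, a ∈ A ↔ φ.sat 𝔐 (Function.update v x a) V

/-- Arithmetical comprehension. -/
def ArithCA (𝔐 : L2Str) : Prop :=
  ∀ φ, Arith φ → ∀ (x : ℕ) (v : ℕ → 𝔐.M) (V : ℕ → Set 𝔐.M), (∀ k, V k ∈ 𝔐.Sets) →
    ∃ A ∈ 𝔐.Sets, ∀ a, a ∈ A ↔ φ.sat 𝔐 (Function.update v x a) V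

/-- The pairing function `(m + n)^2 + m`. -/
def pair (𝔐 : L2Str) (m n : 𝔐.M) : 𝔐.M := 𝔐.add (𝔐.mul (𝔐.add m n) (𝔐.add m n)) m

/-- The `i`-th section of a set. -/
def sec (𝔐 : L2Str) (A : Set 𝔐.M) (i : 𝔐.M) : Set 𝔐.M := {b | 𝔐.pair i b ∈ A}

/-- The scheme of `Sigma^1_1` choice. -/
def SigmaAC (𝔐 : L2Str) : Prop :=
  ∀ φ, Sigma11 φ → ∀ (x X : ℕ) (v : ℕ → 𝔐.M) (V : ℕ → Set 𝔐.M), (∀ k, V k ∈ 𝔐.Sets) →
    (∀ a, ∃ A ∈ 𝔐.Sets, φ.sat 𝔐 (Function.update v x a) (Function.update V X A)) →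
    ∃ B ∈ 𝔐.Sets, ∀ a, φ.sat 𝔐 (Function.update v x a) (Function.update V X (𝔐.sec B a))

/-- `RCA_0` -/
def RCA0 (𝔐 : L2Str) : Prop := 𝔐.Basic ∧ 𝔐.Ind Sigma01 ∧ 𝔐.DeltaCA

/-- `ACA_0` -/
def ACA0 (𝔐 : L2Str) : Prop := 𝔐.RCA0 ∧ 𝔐.ArithCA

/-- `Sigma^1_1-AC_0` -/
def SigmaAC0 (𝔐 : L2Str) : Prop := 𝔐.ACA0 ∧ 𝔐.SigmaAC

/-! ### Graphs and rays -/

/-- `(V, E)` is an undirected graph; the edge `{u, v}` with `u < v` is coded by `pair u v`. -/
def IsUGraph (𝔐 : L2Str) (V E : Set 𝔐.M) : Prop :=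
  ∀ e ∈ E, ∃ u ∈ V, ∃ v ∈ V, 𝔐.lt u v ∧ e = 𝔐.pair u v

/-- `{u, v}` is an edge. -/
def Edge (𝔐 : L2Str) (E : Set 𝔐.M) (u v : 𝔐.M) : Prop :=
  (𝔐.lt u v ∧ 𝔐.pair u v ∈ E) ∨ (𝔐.lt v u ∧ 𝔐.pair v u ∈ E)

/-- `(V', E')` is a subgraph of `(V, E)` and `f` is an isomorphism from the graph `N` with
the edges `{n, n + 1}` onto `(V', E')`. -/
structure IsRay (𝔐 : L2Str) (V E V' E' f : Set 𝔐.M) : Prop where
  vert : V' ⊆ V
  edge : E' ⊆ E
  graph : 𝔐.IsUGraph V' E'
  pairs : ∀ p ∈ f, ∃ n v, p = 𝔐.pair n v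
  total : ∀ n, ∃! v, 𝔐.pair n v ∈ f
  onto : ∀ v, v ∈ V' ↔ ∃ n, 𝔐.pair n v ∈ f
  inj : ∀ m n v, 𝔐.pair m v ∈ f → 𝔐.pair n v ∈ f → m = n
  iso : ∀ m n u v, 𝔐.pair m u ∈ f → 𝔐.pair n v ∈ f →
    (𝔐.Edge E' u v ↔ (n = 𝔐.add m 𝔐.one ∨ m = 𝔐.add n 𝔐.one))

/-- The infinite ray theorem for undirected graphs and vertex-disjoint single rays. Sequences of
rays are given by the sections of three sets. -/
def IRT_UVS (𝔐 : L2Str) : Prop :=
  ∀ V ∈ 𝔐.Sets, ∀ E ∈ 𝔐.Sets, 𝔐.IsUGraph V E →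
    (∀ k, ∃ V' ∈ 𝔐.Sets, ∃ E' ∈ 𝔐.Sets, ∃ f ∈ 𝔐.Sets,
      (∀ i, 𝔐.lt i k → 𝔐.IsRay V E (𝔐.sec V' i) (𝔐.sec E' i) (𝔐.sec f i)) ∧
      ∀ i j, 𝔐.lt i k → 𝔐.lt j k → i ≠ j → Disjoint (𝔐.sec V' i) (𝔐.sec V' j)) →
    ∃ V' ∈ 𝔐.Sets, ∃ E' ∈ 𝔐.Sets, ∃ f ∈ 𝔐.Sets,
      (∀ i, 𝔐.IsRay V E (𝔐.sec V' i) (𝔐.sec E' i) (𝔐.sec f i)) ∧
      ∀ i j, i ≠ j → Disjoint (𝔐.sec V' i) (𝔐.sec V' j)

end L2Str

/-- The `omega`-model with the collection `S` of sets. -/
@[reducible] def omega (S : Set (Set ℕ)) : L2Str where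
  M := ℕ
  zero := 0
  one := 1
  add := (· + ·)
  mul := (· * ·)
  lt := (· < ·)
  Sets := S

/-! ### Proofs -/

open Halin

theorem basic_omega (S : Set (Set ℕ)) : (omega S).Basic where
  succ_ne n := Nat.succ_ne_zero n
  succ_inj _ _ h := Nat.succ_injective h
  add_zero m := Nat.add_zero m
  add_succ _ _ := rfl
  mul_zero m := Nat.mul_zero m
  mul_succ m n := Nat.mul_succ m n
  not_lt_zero m := Nat.not_lt_zero m
  lt_succ _ _ := Nat.lt_succ_iff_lt_or_eq

theorem ind_omega (S : Set (Set ℕ)) (C : Fml → Prop) : (omega S).Ind C := by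
  intro φ _ x v V _ h0 h1 a
  induction a with
  | zero => exact h0
  | succ n ih => exact h1 n ih

theorem pair_omega (S : Set (Set ℕ)) (a b : ℕ) : (omega S).pair a b = pr a b := rfl

theorem bdd_arith {φ : Fml} (h : Bdd φ) : Arith φ := by
  induction h with
  | eq => trivial
  | lt => trivial
  | mem => trivial
  | neg _ ih => exact ih
  | and _ _ ih1 ih2 => exact ⟨ih1, ih2⟩
  | ball _ _ ih => exact ⟨trivial, ih⟩

theorem deltaCA_of_arithCA {𝔐 : L2Str} (h : 𝔐.ArithCA) : 𝔐.DeltaCA := by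
  rintro φ ψ ⟨x, θ, hθ, rfl⟩ - y v V hV -
  exact h _ (show Arith (.ex x θ) from (show Arith θ from bdd_arith hθ)) y v V hV

/-! ### Arithmetical comprehension -/

theorem sat_omega {φ : Fml} (h : Arith φ) (S S' : Set (Set ℕ)) :
    ∀ (v : ℕ → ℕ) (V : ℕ → Set ℕ), φ.sat (omega S) v V ↔ φ.sat (omega S') v V := by
  have hval : ∀ (t : Trm) (v : ℕ → ℕ), t.val (omega S) v = t.val (omega S') v := by
    intro t v
    induction t with
    | var n => rfl
    | zero => rfl
    | one => rfl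
    | add s t ih1 ih2 => exact congrArg₂ (· + ·) ih1 ih2
    | mul s t ih1 ih2 => exact congrArg₂ (· * ·) ih1 ih2
  induction φ with
  | eq s t => intro v V; simp only [Fml.sat, hval]
  | lt s t => intro v V; simp only [Fml.sat, hval]
  | mem t X => intro v V; simp only [Fml.sat, hval]
  | neg φ ih => intro v V; exact not_congr (ih h v V)
  | and φ ψ ih1 ih2 => intro v V; exact and_congr (ih1 h.1 v V) (ih2 h.2 v V)
  | all x φ ih => intro v V; exact forall_congr' fun a => ih h _ V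
  | allS X φ ih => exact h.elim

theorem val_congr (t : Trm) : ∃ N, ∀ v v' : ℕ → ℕ, (∀ i < N, v i = v' i) →
    t.val (omega ∅) v = t.val (omega ∅) v' := by
  induction t with
  | var n => exact ⟨n + 1, fun v v' h => h n (Nat.lt_succ_self n)⟩
  | zero => exact ⟨0, fun _ _ _ => rfl⟩
  | one => exact ⟨0, fun _ _ _ => rfl⟩
  | add s t ih1 ih2 =>
    obtain ⟨N, hN⟩ := ih1
    obtain ⟨M, hM⟩ := ih2
    exact ⟨max N M, fun v v' h => congrArg₂ (· + ·)
      (hN v v' fun i hi => h i (hi.trans_le (le_max_left _ _)))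
      (hM v v' fun i hi => h i (hi.trans_le (le_max_right _ _)))⟩
  | mul s t ih1 ih2 =>
    obtain ⟨N, hN⟩ := ih1
    obtain ⟨M, hM⟩ := ih2
    exact ⟨max N M, fun v v' h => congrArg₂ (· * ·)
      (hN v v' fun i hi => h i (hi.trans_le (le_max_left _ _)))
      (hM v v' fun i hi => h i (hi.trans_le (le_max_right _ _)))⟩

theorem sat_congr {φ : Fml} (h : Arith φ) : ∃ N, ∀ (v v' : ℕ → ℕ) (V V' : ℕ → Set ℕ),
    (∀ i < N, v i = v' i) → (∀ i < N, V i = V' i) →
    (φ.sat (omega ∅) v V ↔ φ.sat (omega ∅) v' V') := by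
  induction φ with
  | eq s t =>
    obtain ⟨N, hN⟩ := val_congr s
    obtain ⟨M, hM⟩ := val_congr t
    refine ⟨max N M, fun v v' V V' h _ => ?_⟩
    simp only [Fml.sat]
    rw [hN v v' fun i hi => h i (hi.trans_le (le_max_left _ _)),
      hM v v' fun i hi => h i (hi.trans_le (le_max_right _ _))]
  | lt s t =>
    obtain ⟨N, hN⟩ := val_congr s
    obtain ⟨M, hM⟩ := val_congr t
    refine ⟨max N M, fun v v' V V' h _ => ?_⟩
    simp only [Fml.sat]
    rw [hN v v' fun i hi => h i (hi.trans_le (le_max_left _ _)),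
      hM v v' fun i hi => h i (hi.trans_le (le_max_right _ _))]
  | mem t X =>
    obtain ⟨N, hN⟩ := val_congr t
    refine ⟨max N (X + 1), fun v v' V V' h h' => ?_⟩
    simp only [Fml.sat]
    rw [hN v v' fun i hi => h i (hi.trans_le (le_max_left _ _)),
      h' X (lt_of_lt_of_le (Nat.lt_succ_self X) (le_max_right _ _))]
  | neg φ ih =>
    obtain ⟨N, hN⟩ := ih h
    exact ⟨N, fun v v' V V' h h' => not_congr (hN v v' V V' h h')⟩
  | and φ ψ ih1 ih2 =>
    obtain ⟨N, hN⟩ := ih1 h.1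
    obtain ⟨M, hM⟩ := ih2 h.2
    exact ⟨max N M, fun v v' V V' h h' => and_congr
      (hN v v' V V' (fun i hi => h i (hi.trans_le (le_max_left _ _)))
        (fun i hi => h' i (hi.trans_le (le_max_left _ _))))
      (hM v v' V V' (fun i hi => h i (hi.trans_le (le_max_right _ _)))
        (fun i hi => h' i (hi.trans_le (le_max_right _ _))))⟩
  | all x φ ih =>
    obtain ⟨N, hN⟩ := ih h
    refine ⟨N, fun v v' V V' h h' => forall_congr' fun a => hN _ _ V V' ?_ h'⟩
    intro i hi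
    by_cases hix : i = x
    · subst hix; simp
    · rw [Function.update_of_ne hix, Function.update_of_ne hix]; exact h i hi
  | allS X φ ih => exact h.elim

/-- Coding finitely many reals. -/
def nth (W : ℕ → ℕ) : ℕ → (ℕ → ℕ)
  | 0 => row W 0
  | k + 1 => nth (row W 1) k

theorem measurable_nth (k : ℕ) : Measurable (fun W => nth W k) := by
  induction k with
  | zero => exact measurable_row 0
  | succ k ih => exact ih.comp (measurable_row 1)

/-- The collection coded by a real. -/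
def VW (W : ℕ → ℕ) (k : ℕ) : Set ℕ := {m | nth W k m ≠ 0}

theorem BP_sat {φ : Fml} (h : Arith φ) : ∀ v : ℕ → ℕ,
    BP (fun W : ℕ → ℕ => φ.sat (omega ∅) v (VW W)) := by
  induction φ with
  | eq s t => intro v; exact BP.const _
  | lt s t => intro v; exact BP.const _
  | mem t X =>
    intro v
    exact (CM.app (measurable_nth X) (t.val (omega ∅) v) 0).not
  | neg φ ih => intro v; exact (ih h v).not
  | and φ ψ ih1 ih2 => intro v; exact (ih1 h.1 v).and (ih2 h.2 v)
  | all x φ ih => intro v; exact BP.all fun a => ih h _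
  | allS X φ ih => exact h.elim

def vl (l : List ℕ) (i : ℕ) : ℕ := l.getD i 0

open Classical in
/-- Comprehension as an operation on reals. -/
noncomputable def kC (t : Fml × ℕ × List ℕ) (W : ℕ → ℕ) : ℕ → ℕ := fun a =>
  if t.1.sat (omega ∅) (Function.update (vl t.2.2) t.2.1 a) (VW W) then 1 else 0

theorem measurable_kC {t : Fml × ℕ × List ℕ} (h : Arith t.1) : Measurable (kC t) := by
  classical
  exact measurable_fun_iff.mpr fun _ => CM.ite (BP_sat h _) (CM.const _) (CM.const _)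

/-! ### Operations translating between the codings -/

open Classical in
noncomputable def chr (A : Set ℕ) : ℕ → ℕ := fun n => if n ∈ A then 1 else 0

theorem chr_ne {A : Set ℕ} {n : ℕ} : chr A n ≠ 0 ↔ n ∈ A := by
  simp only [chr]
  split <;> simp_all

theorem measurable_chr {α : Type*} [MeasurableSpace α] {A : α → Set ℕ}
    (h : ∀ n, BP (fun a => n ∈ A a)) : Measurable (fun a => chr (A a)) := by
  classical
  exact measurable_fun_iff.mpr fun n => CM.ite (h n) (CM.const _) (CM.const _)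

/-- From three sets coding a sequence of rays to the sequence of rays. -/
noncomputable def kin (X : ℕ → ℕ) : ℕ → ℕ :=
  mk (fun i n => lst (fun v => X (pr i (pr n v)) ≠ 0))

theorem measurable_kin : Measurable kin :=
  measurable_mk fun _ => measurable_fun_iff.mpr fun _ =>
    CM.lst fun _ => (CM.app measurable_id _ 0).not

noncomputable def kV (W : ℕ → ℕ) : ℕ → ℕ := chr {m | ∃ i n, m = pr i (row W i n)}

theorem measurable_kV : Measurable kV :=
  measurable_chr fun m => BP.ex fun i => BP.ex fun n =>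
    (CM.app (measurable_row i) n).pred (fun x => m = pr i x)

noncomputable def kE (W : ℕ → ℕ) : ℕ → ℕ := chr {m | ∃ i n,
  m = pr i (pr (min (row W i n) (row W i (n + 1))) (max (row W i n) (row W i (n + 1))))}

theorem measurable_kE : Measurable kE :=
  measurable_chr fun m => BP.ex fun i => BP.ex fun n =>
    (CM.map₂ (CM.app (measurable_row i) n) (CM.app (measurable_row i) (n + 1))
      (fun x y => pr i (pr (min x y) (max x y)))).pred (fun z => m = z)

noncomputable def kF (W : ℕ → ℕ) : ℕ → ℕ := chr {m | ∃ i n, m = pr i (pr n (row W i n))}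

theorem measurable_kF : Measurable kF :=
  measurable_chr fun m => BP.ex fun i => BP.ex fun n =>
    (CM.app (measurable_row i) n).pred (fun x => m = pr i (pr n x))

def enc (σ : List ℕ) : ℕ := Encodable.encode σ

theorem enc_nil : enc [] = 0 := rfl

theorem enc_inj {σ τ : List ℕ} (h : enc σ = enc τ) : σ = τ := Encodable.encode_injective h

/-- The edge relation of the forest. -/
noncomputable def kT (τ : ℕ → ℕ) : ℕ → ℕ := chr {m | ∃ (i n : ℕ) (σ : List ℕ),
  m = pr (pr i (enc σ)) (pr i (enc (n :: σ))) ∧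
    τ (Encodable.encode ((i, n :: σ) : Node)) ≠ 0}

theorem measurable_kT : Measurable kT :=
  measurable_chr fun _ => BP.ex fun _ => BP.ex fun _ => BP.ex fun _ =>
    (BP.const _).and (CM.app measurable_id _ 0).not

/-- From a path to the sequence of codes of its nodes. -/
noncomputable def kP (i : ℕ) (X : ℕ → ℕ) : ℕ → ℕ := chr {m | ∃ n, m = pr n (pr i (enc (pre X n)))}

theorem measurable_kP (i : ℕ) : Measurable (kP i) :=
  measurable_chr fun m => BP.ex fun n =>
    (CM_pre measurable_id n).pred (fun σ => m = pr n (pr i (enc σ)))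

/-- The least selection function of a section. -/
noncomputable def lsf (i : ℕ) (Y : ℕ → ℕ) (n : ℕ) : ℕ := lst (fun m => Y (pr i (pr n m)) ≠ 0)

/-- From a sequence of codes of nodes to the path. -/
noncomputable def kQ (i : ℕ) (Y : ℕ → ℕ) : ℕ → ℕ := fun n =>
  lst (fun x => ∃ σ, lsf i Y (n + 1) = pr i (enc (x :: σ)))

theorem measurable_kQ (i : ℕ) : Measurable (kQ i) := by
  refine measurable_fun_iff.mpr fun n => CM.lst fun x => BP.ex fun σ => ?_
  exact CM.pred (CM.lst fun m => (CM.app measurable_id _ 0).not)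
    (fun y => y = pr i (enc (x :: σ)))

/-- All operations. -/
def KK : Set ((ℕ → ℕ) → (ℕ → ℕ)) :=
  KI ∪ ((kC '' {t | Arith t.1}) ∪ ({kin, kV, kE, kF, kT} ∪ (Set.range kP ∪ Set.range kQ)))

theorem KK_countable : KK.Countable :=
  KI_countable.union (((Set.to_countable _).image _).union
    (Set.Countable.union (by simp) ((Set.countable_range _).union (Set.countable_range _))))

theorem KK_measurable : ∀ Φ ∈ KK, Measurable Φ := by
  rintro Φ (h | ⟨t, ht, rfl⟩ | h | ⟨i, rfl⟩ | ⟨i, rfl⟩)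
  · exact KI_measurable Φ h
  · exact measurable_kC ht
  · simp only [Set.mem_insert_iff, Set.mem_singleton_iff] at h
    rcases h with rfl | rfl | rfl | rfl | rfl
    · exact measurable_kin
    · exact measurable_kV
    · exact measurable_kE
    · exact measurable_kF
    · exact measurable_kT
  · exact measurable_kP i
  · exact measurable_kQ i

/-! ### The model -/

/-- The sets of the model. -/
def SS (S : Finset ℕ → Set (ℕ → ℕ)) : Set (Set ℕ) := {A | ∃ F, ∃ X ∈ S F, A = {m | X m ≠ 0}}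

section
variable {S : Finset ℕ → Set (ℕ → ℕ)} (hS : MProp S) (hK : ∀ F, ∀ X ∈ S F, ∀ Φ ∈ KK, Φ X ∈ S F)

include hS in
theorem exists_code (h0 : ∃ X, X ∈ S ∅) (N : ℕ) : ∀ V : ℕ → Set ℕ, (∀ k, V k ∈ SS S) →
    ∃ F, ∃ W ∈ S F, ∀ k < N, VW W k = V k := by
  induction N with
  | zero =>
    intro V _
    obtain ⟨X, hX⟩ := h0
    exact ⟨∅, X, hX, by intro k hk; omega⟩
  | succ N ih =>
    intro V hV
    obtain ⟨F, W, hW, h1⟩ := ih (fun k => V (k + 1)) (fun k => hV (k + 1))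
    obtain ⟨F', X, hX, h2⟩ := hV 0
    refine ⟨F' ∪ F, join X W, hS.join _ _ (hS.mono _ _ Finset.subset_union_left hX) _
      (hS.mono _ _ Finset.subset_union_right hW), ?_⟩
    intro k hk
    cases k with
    | zero => simp only [VW, nth, row_join_zero, h2]
    | succ k =>
      rw [← h1 k (by omega)]
      simp only [VW, nth, row_join_one]

include hS hK in
theorem arithCA_SS (h0 : ∃ X, X ∈ S ∅) : (omega (SS S)).ArithCA := by
  intro φ hφ x v V hV
  obtain ⟨N, hN⟩ := sat_congr hφ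
  obtain ⟨F, W, hW, h1⟩ := exists_code hS h0 N V hV
  have h2 := hK F W hW (kC (φ, x, (List.range N).map v)) (Or.inr (Or.inl ⟨_, hφ, rfl⟩))
  refine ⟨_, ⟨F, _, h2, rfl⟩, ?_⟩
  intro a
  have h3 : a ∈ {m | kC (φ, x, (List.range N).map v) W m ≠ 0} ↔
      φ.sat (omega ∅) (Function.update (vl ((List.range N).map v)) x a) (VW W) := by
    simp only [Set.mem_ofPred_eq, kC]
    split <;> simp_all
  rw [h3, sat_omega hφ (SS S) ∅]
  apply hN
  · intro i hi
    by_cases hix : i = x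
    · subst hix; simp
    · rw [Function.update_of_ne hix, Function.update_of_ne hix, vl,
        List.getD_eq_getElem _ _ (by simpa using hi)]
      simp
  · exact h1

include hS hK in
theorem irt_SS : (omega (SS S)).IRT_UVS := by
  rintro V hV E ⟨Fs, H, hH, rfl⟩ hG hk
  have hirt := irt hS hH (by
    intro k
    obtain ⟨V', -, E', -, f, ⟨F, X, hX, rfl⟩, h1, h2⟩ := hk k
    refine ⟨F, kin X, hK F X hX kin (Or.inr (Or.inr (Or.inl (by simp)))), ?_⟩
    have key : ∀ i < k, ∀ n, X (pr i (pr n (row (kin X) i n))) ≠ 0 := by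
      intro i hi n
      obtain ⟨w, hw, -⟩ := (h1 i hi).total n
      have h3 : ∃ w, X (pr i (pr n w)) ≠ 0 := ⟨w, hw⟩
      have h4 := lst_spec h3
      simp only [kin, row_mk]
      exact h4
    refine ⟨?_, ?_⟩
    · intro i hi
      refine ⟨?_, ?_⟩
      · intro m n hmn
        refine (h1 i hi).inj m n (row (kin X) i m) (key i hi m) ?_
        rw [hmn]
        exact key i hi n
      · intro n
        have h3 := ((h1 i hi).iso n (n + 1) _ _ (key i hi n) (key i hi (n + 1))).mpr (Or.inl rfl)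
        rcases h3 with ⟨h4, h5⟩ | ⟨h4, h5⟩
        · exact Or.inl ⟨h4, (h1 i hi).edge h5⟩
        · exact Or.inr ⟨h4, (h1 i hi).edge h5⟩
    · intro i hi j hj hij m m' h0
      have h3 : row (kin X) i m ∈ (omega (SS S)).sec V' i :=
        ((h1 i hi).onto _).mpr ⟨m, key i hi m⟩
      have h4 : row (kin X) j m' ∈ (omega (SS S)).sec V' j :=
        ((h1 j hj).onto _).mpr ⟨m', key j hj m'⟩
      rw [h0] at h3
      exact Set.disjoint_left.mp (h2 i j hi hj hij) h3 h4)
  obtain ⟨F, W, hW, h1, h2⟩ := hirt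
  have memV : ∀ i b, b ∈ (omega (SS S)).sec {m | kV W m ≠ 0} i ↔ ∃ n, b = row W i n := by
    intro i b
    show kV W (pr i b) ≠ 0 ↔ _
    rw [kV, chr_ne]
    constructor
    · rintro ⟨i', n, h⟩
      obtain ⟨rfl, rfl⟩ := pr_inj h
      exact ⟨n, rfl⟩
    · rintro ⟨n, rfl⟩
      exact ⟨i, n, rfl⟩
  have memE : ∀ i b, b ∈ (omega (SS S)).sec {m | kE W m ≠ 0} i ↔
      ∃ n, b = pr (min (row W i n) (row W i (n + 1))) (max (row W i n) (row W i (n + 1))) := by
    intro i b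
    show kE W (pr i b) ≠ 0 ↔ _
    rw [kE, chr_ne]
    constructor
    · rintro ⟨i', n, h⟩
      obtain ⟨rfl, rfl⟩ := pr_inj h
      exact ⟨n, rfl⟩
    · rintro ⟨n, rfl⟩
      exact ⟨i, n, rfl⟩
  have memF : ∀ i n v, pr n v ∈ (omega (SS S)).sec {m | kF W m ≠ 0} i ↔ v = row W i n := by
    intro i n v
    show kF W (pr i (pr n v)) ≠ 0 ↔ _
    rw [kF, chr_ne]
    constructor
    · rintro ⟨i', n', h⟩
      obtain ⟨rfl, h3⟩ := pr_inj h
      obtain ⟨rfl, rfl⟩ := pr_inj h3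
      rfl
    · rintro rfl
      exact ⟨i, n, rfl⟩
  have hne : ∀ i n, row W i n ≠ row W i (n + 1) := by
    intro i n h0
    have := (h1 i).1 h0
    omega
  have hedge : ∀ i n, pr (min (row W i n) (row W i (n + 1)))
      (max (row W i n) (row W i (n + 1))) ∈ {m | H m ≠ 0} := by
    intro i n
    rcases (h1 i).2 n with ⟨h3, h4⟩ | ⟨h3, h4⟩
    · rw [min_eq_left h3.le, max_eq_right h3.le]; exact h4
    · rw [min_eq_right h3.le, max_eq_left h3.le]; exact h4
  refine ⟨_, ⟨F, kV W, hK F W hW kV (Or.inr (Or.inr (Or.inl (by simp)))), rfl⟩,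
    _, ⟨F, kE W, hK F W hW kE (Or.inr (Or.inr (Or.inl (by simp)))), rfl⟩,
    _, ⟨F, kF W, hK F W hW kF (Or.inr (Or.inr (Or.inl (by simp)))), rfl⟩, ?_, ?_⟩
  · intro i
    refine ⟨?_, ?_, ?_, ?_, ?_, ?_, ?_, ?_⟩
    · intro b hb
      obtain ⟨n, rfl⟩ := (memV i b).mp hb
      obtain ⟨u, hu, w, hw, huw, h3⟩ := hG _ (hedge i n)
      obtain ⟨h4, h5⟩ := pr_inj h3
      rcases le_total (row W i n) (row W i (n + 1)) with h6 | h6
      · rw [min_eq_left h6] at h4
        rw [h4]; exact hu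
      · rw [max_eq_left h6] at h5
        rw [h5]; exact hw
    · intro b hb
      obtain ⟨n, rfl⟩ := (memE i b).mp hb
      exact hedge i n
    · intro b hb
      obtain ⟨n, rfl⟩ := (memE i b).mp hb
      refine ⟨_, (memV i _).mpr ?_, _, (memV i _).mpr ?_, ?_, rfl⟩
      · rcases le_total (row W i n) (row W i (n + 1)) with h6 | h6
        · exact ⟨n, min_eq_left h6⟩
        · exact ⟨n + 1, min_eq_right h6⟩
      · rcases le_total (row W i n) (row W i (n + 1)) with h6 | h6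
        · exact ⟨n + 1, max_eq_right h6⟩
        · exact ⟨n, max_eq_left h6⟩
      · exact min_lt_max.mpr (hne i n)
    · intro p hp
      have hp' : kF W (pr i p) ≠ 0 := hp
      rw [kF, chr_ne] at hp'
      obtain ⟨i', n, h⟩ := hp'
      obtain ⟨rfl, rfl⟩ := pr_inj h
      exact ⟨n, _, rfl⟩
    · intro n
      exact ⟨row W i n, (memF i n _).mpr rfl, fun v hv => (memF i n v).mp hv⟩
    · intro v
      rw [memV]
      exact exists_congr fun n => (memF i n v).symm
    · intro m n v hm hn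
      have h3 := (memF i m v).mp hm
      have h4 := (memF i n v).mp hn
      exact (h1 i).1 (h3.symm.trans h4)
    · intro m n u v hm hn
      have h3 := (memF i m u).mp hm
      have h4 := (memF i n v).mp hn
      subst h3 h4
      constructor
      · rintro (⟨h5, h6⟩ | ⟨h5, h6⟩)
        · obtain ⟨j, hj⟩ := (memE i _).mp h6
          obtain ⟨h7, h8⟩ := pr_inj hj
          rcases le_total (row W i j) (row W i (j + 1)) with h9 | h9
          · rw [min_eq_left h9] at h7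
            rw [max_eq_right h9] at h8
            have e1 := (h1 i).1 h7
            have e2 := (h1 i).1 h8
            exact Or.inl (e2.trans (congrArg Nat.succ e1.symm))
          · rw [min_eq_right h9] at h7
            rw [max_eq_left h9] at h8
            have e1 := (h1 i).1 h7
            have e2 := (h1 i).1 h8
            exact Or.inr (e1.trans (congrArg Nat.succ e2.symm))
        · obtain ⟨j, hj⟩ := (memE i _).mp h6
          obtain ⟨h7, h8⟩ := pr_inj hj
          rcases le_total (row W i j) (row W i (j + 1)) with h9 | h9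
          · rw [min_eq_left h9] at h7
            rw [max_eq_right h9] at h8
            have e1 := (h1 i).1 h7
            have e2 := (h1 i).1 h8
            exact Or.inr (e2.trans (congrArg Nat.succ e1.symm))
          · rw [min_eq_right h9] at h7
            rw [max_eq_left h9] at h8
            have e1 := (h1 i).1 h7
            have e2 := (h1 i).1 h8
            exact Or.inl (e1.trans (congrArg Nat.succ e2.symm))
      · have key : ∀ m, (omega (SS S)).Edge ((omega (SS S)).sec {m | kE W m ≠ 0} i)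
            (row W i m) (row W i (m + 1)) := by
          intro m
          rcases Nat.lt_or_gt_of_ne (hne i m) with h9 | h9
          · left
            refine ⟨h9, (memE i _).mpr ⟨m, ?_⟩⟩
            rw [min_eq_left h9.le, max_eq_right h9.le]
            rfl
          · right
            refine ⟨h9, (memE i _).mpr ⟨m, ?_⟩⟩
            rw [min_eq_right h9.le, max_eq_left h9.le]
            rfl
        rintro (h5 | h5)
        · have h6 : n = m + 1 := h5
          subst h6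
          exact key m
        · have h6 : m = n + 1 := h5
          subst h6
          exact (key n).symm
  · intro i j hij
    rw [Set.disjoint_left]
    intro b hb hb'
    obtain ⟨n, rfl⟩ := (memV i b).mp hb
    obtain ⟨n', h3⟩ := (memV j _).mp hb'
    exact h2 i j hij n n' h3

/-! ### Failure of choice -/

def pairT (s t : Trm) : Trm := .add (.mul (.add s t) (.add s t)) s

/-- The set variable `0` is a sequence of nodes, which starts at the root of the tree given by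
the number variable `0` and proceeds along the edges given by the set variable `1`. -/
def theta : Fml :=
  .and (.all 1 (.imp (.mem (pairT .zero (.var 1)) 0) (.eq (.var 1) (pairT (.var 0) .zero))))
    (.and (.all 1 (.ex 2 (.mem (pairT (.var 1) (.var 2)) 0)))
      (.all 1 (.all 2 (.all 3 (.imp (.and (.mem (pairT (.var 1) (.var 2)) 0)
        (.mem (pairT (.add (.var 1) .one) (.var 3)) 0)) (.mem (pairT (.var 2) (.var 3)) 1))))))

theorem sat_theta (T : Set (Set ℕ)) (v : ℕ → ℕ) (V : ℕ → Set ℕ) :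
    theta.sat (omega T) v V ↔ (∀ n, pr 0 n ∈ V 0 → n = pr (v 0) 0) ∧
      (∀ n, ∃ m, pr n m ∈ V 0) ∧
      ∀ n m m', pr n m ∈ V 0 → pr (n + 1) m' ∈ V 0 → pr m m' ∈ V 1 := by
  simp only [theta, Fml.sat, Fml.imp, Fml.ex, pairT, Trm.val]
  simp [Function.update, pr]

include hK in
theorem not_ac {τ : ℕ → ℕ} (hτ : τ ∈ S ∅)
    (h1 : ∀ i, ∃ X ∈ S {i}, ∀ n, τ (Encodable.encode ((i, pre X n) : Node)) ≠ 0)
    (h2 : ∀ F : Finset ℕ, ∀ i, i ∉ F → ∀ X ∈ S F,
          ∃ n, τ (Encodable.encode ((i, pre X n) : Node)) = 0) :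
    ¬ (omega (SS S)).SigmaAC := by
  intro hac
  set ET : Set ℕ := {m | kT τ m ≠ 0} with hET
  have hETS : ET ∈ SS S := ⟨∅, kT τ, hK ∅ τ hτ kT (Or.inr (Or.inr (Or.inl (by simp)))), rfl⟩
  have memT : ∀ a b, pr a b ∈ ET ↔ ∃ (i n : ℕ) (σ : List ℕ), a = pr i (enc σ) ∧
      b = pr i (enc (n :: σ)) ∧ τ (Encodable.encode ((i, n :: σ) : Node)) ≠ 0 := by
    intro a b
    show kT τ (pr a b) ≠ 0 ↔ _
    rw [kT, chr_ne]
    constructor
    · rintro ⟨i, n, σ, h, h'⟩
      obtain ⟨h3, h4⟩ := pr_inj h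
      exact ⟨i, n, σ, h3, h4, h'⟩
    · rintro ⟨i, n, σ, rfl, rfl, h'⟩
      exact ⟨i, n, σ, rfl, h'⟩
  obtain ⟨B, ⟨F, Y, hY, rfl⟩, hB⟩ := hac (.exS 2 theta) ⟨2, theta, by
      simp [theta, Arith, Fml.imp, Fml.ex], rfl⟩ 0 0 (fun _ => 0) (fun _ => ET) (fun _ => hETS) (by
    intro i
    obtain ⟨X, hX, h3⟩ := h1 i
    refine ⟨{m | kP i X m ≠ 0}, ⟨{i}, kP i X, hK _ X hX (kP i)
      (Or.inr (Or.inr (Or.inr (Or.inl ⟨i, rfl⟩)))), rfl⟩, ?_⟩
    intro hcon
    refine hcon ET hETS ?_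
    rw [sat_theta]
    have memP : ∀ n m, pr n m ∈ {m | kP i X m ≠ 0} ↔ m = pr i (enc (pre X n)) := by
      intro n m
      show kP i X (pr n m) ≠ 0 ↔ _
      rw [kP, chr_ne]
      constructor
      · rintro ⟨n', h⟩
        obtain ⟨rfl, rfl⟩ := pr_inj h
        rfl
      · rintro rfl
        exact ⟨n, rfl⟩
    have e0 : Function.update (Function.update (fun _ => ET) 0 {m | kP i X m ≠ 0}) 2 ET 0 =
        {m | kP i X m ≠ 0} := by simp
    have e1 : Function.update (Function.update (fun _ => ET) 0 {m | kP i X m ≠ 0}) 2 ET 1 =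
        ET := by simp
    rw [e0, e1]
    refine ⟨?_, ?_, ?_⟩
    · intro n hn
      rw [memP] at hn
      simpa [pre, enc_nil] using hn
    · intro n
      exact ⟨_, (memP n _).mpr rfl⟩
    · intro n m m' hm hm'
      rw [memP] at hm hm'
      rw [memT]
      exact ⟨i, X n, pre X n, hm, hm', h3 (n + 1)⟩)
  obtain ⟨i, hi⟩ := Infinite.exists_notMem_finset F
  have hBi := hB i
  have hBi' : ∃ A' ∈ SS S, theta.sat (omega (SS S)) (Function.update (fun _ => 0) 0 i)
      (Function.update (Function.update (fun _ => ET) 0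
        ((omega (SS S)).sec {m | Y m ≠ 0} i)) 2 A') := by
    by_contra h0
    push Not at h0
    exact hBi fun A hA => h0 A hA
  obtain ⟨A', -, hA'⟩ := hBi'
  rw [sat_theta] at hA'
  have e0 : Function.update (Function.update (fun _ => ET) 0
        ((omega (SS S)).sec {m | Y m ≠ 0} i)) 2 A' 0 =
      (omega (SS S)).sec {m | Y m ≠ 0} i := by simp
  have e1 : Function.update (Function.update (fun _ => ET) 0
        ((omega (SS S)).sec {m | Y m ≠ 0} i)) 2 A' 1 = ET := by simp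
  rw [e0, e1] at hA'
  obtain ⟨c1, c2, c3⟩ := hA'
  have hsec : ∀ n m, pr n m ∈ (omega (SS S)).sec {m | Y m ≠ 0} i ↔ Y (pr i (pr n m)) ≠ 0 :=
    fun _ _ => Iff.rfl
  have hl : ∀ n, Y (pr i (pr n (lsf i Y n))) ≠ 0 := by
    intro n
    obtain ⟨m, hm⟩ := c2 n
    exact lst_spec (P := fun m => Y (pr i (pr n m)) ≠ 0) ⟨m, hm⟩
  have h0 : lsf i Y 0 = pr i (enc []) := by
    have := c1 (lsf i Y 0) (hl 0)
    simpa [enc_nil] using this
  have hstep : ∀ n, lsf i Y n = pr i (enc (pre (kQ i Y) n)) ∧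
      τ (Encodable.encode ((i, pre (kQ i Y) n) : Node)) ≠ 0 := by
    intro n
    induction n with
    | zero =>
      refine ⟨h0, ?_⟩
      obtain ⟨X, -, h3⟩ := h1 i
      exact h3 0
    | succ n ih =>
      have h3 := c3 n _ _ (hl n) (hl (n + 1))
      rw [memT] at h3
      obtain ⟨i', x, σ, h4, h5, h6⟩ := h3
      rw [ih.1] at h4
      obtain ⟨rfl, h7⟩ := pr_inj h4
      have h8 := enc_inj h7
      subst h8
      have h9 : kQ i Y n = x := by
        have h10 : ∃ x, ∃ σ, lsf i Y (n + 1) = pr i (enc (x :: σ)) := ⟨x, _, h5⟩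
        obtain ⟨σ', h11⟩ := lst_spec h10
        have h12 := enc_inj (pr_inj (h5.symm.trans h11)).2
        exact (List.cons.inj h12).1.symm
      refine ⟨?_, ?_⟩
      · rw [h5]
        simp only [pre, h9]
      · simp only [pre, h9]
        exact h6
  obtain ⟨n, hn⟩ := h2 F i hi (kQ i Y) (hK F Y hY (kQ i)
    (Or.inr (Or.inr (Or.inr (Or.inr ⟨i, rfl⟩)))))
  exact (hstep n).2 hn

end

/-- There is an `omega`-model of `ACA_0` in which the infinite ray theorem `IRT_UVS` holds and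
`Sigma^1_1` choice fails; hence `RCA_0` together with `Sigma^1_1` induction and `IRT_UVS` does
not imply `Sigma^1_1-AC_0`. -/
theorem result :
    (∃ S : Set (Set ℕ), (omega S).ACA0 ∧ (∀ C, (omega S).Ind C) ∧ (omega S).IRT_UVS ∧
      ¬ (omega S).SigmaAC) ∧
    ¬ ∀ 𝔐 : L2Str, 𝔐.RCA0 → 𝔐.Ind Sigma11 → 𝔐.IRT_UVS → 𝔐.SigmaAC0 := by
  obtain ⟨S, s1, s2, s3, ⟨τ, hτ, s4, s5⟩, s6, s7⟩ := exists_model (PP := {Inq})
    KK_countable KK_measurable (Set.countable_singleton _)
    (by rintro P rfl k; exact BP_Inq k) BP_RayP BP_FiP BP_HvP HvP_inv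
  have hS : MProp S := ⟨s1, s2, fun F X hX Φ hΦ => s3 F X hX Φ (Or.inl hΦ),
    s6 Inq rfl, s7⟩
  have hca := arithCA_SS hS s3 ⟨τ, hτ⟩
  have hrca : (omega (SS S)).RCA0 := ⟨basic_omega _, ind_omega _ _, deltaCA_of_arithCA hca⟩
  have hac := not_ac s3 hτ s4 s5
  have hirt := irt_SS hS s3
  exact ⟨⟨SS S, ⟨hrca, hca⟩, fun C => ind_omega _ C, hirt, hac⟩,
    fun h => hac (h _ hrca (ind_omega _ _) hirt).2⟩

end Pool.Agent.Results.MP_7aa86b_lc.HalinOmegaModel
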